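import Mathlib
import Pool.Agent.H916R3.HFC.Main
import Pool.Agent.Helper292.ForceCH

set_option autoImplicit false

/-!
# Hereditarily separable, not hereditarily sequentially separable `C_p(X)` under CH

Under CH we construct, by a recursion of length `ω₁`, a subspace `X` of the Cantor cube `2^{ω₁}` such
that `C_p(X)` is hereditarily separable, while the set `S` of the coordinate functions (at most `ℵ₁`
functions with values in `{0, 1}`) is not sequentially separable, not even with the help of a
countable set of continuous functions outside `S`.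
-/

namespace Pool.Agent.Results.MP_f4fb69_gt.ConsistentlyNot

open Filter Topology Cardinal
open Pool.Agent.Helper292.ForceCH (OmegaOnePreserved CHHolds)

/-- `C_p(X)` is hereditarily separable. -/
def HS (X : Type) [TopologicalSpace X] : Prop :=
  ∀ S : Set {f : X → ℝ // Continuous f}, ∃ D ⊆ S, D.Countable ∧ S ⊆ closure D

/-- The set `S` is contained in the set of the limits of sequences from some countable set of
continuous functions. -/
def SeqHull {X : Type} [TopologicalSpace X] (S : Set {f : X → ℝ // Continuous f}) : Prop :=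
  ∃ D : Set {f : X → ℝ // Continuous f}, D.Countable ∧
    ∀ f ∈ S, ∃ u : ℕ → {f : X → ℝ // Continuous f}, (∀ n, u n ∈ D) ∧ Tendsto u atTop (𝓝 f)

/-- `C_p(X)` is hereditarily sequentially separable. -/
def HSS (X : Type) [TopologicalSpace X] : Prop :=
  ∀ S : Set {f : X → ℝ // Continuous f}, ∃ D ⊆ S, D.Countable ∧
    ∀ f ∈ S, ∃ u : ℕ → {f : X → ℝ // Continuous f}, (∀ n, u n ∈ D) ∧ Tendsto u atTop (𝓝 f)

/-- (A) There is a notion of forcing all of whose conditions force that `ω₁` is preserved and that
the continuum hypothesis holds. (B) The continuum hypothesis implies that there are a Tychonoff space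
`X` and a set `S` of at most `ℵ₁` continuous functions on `X` with values in `{0, 1}` such that
`C_p(X)` is hereditarily separable, no countable set of continuous functions has all members of `S`
as limits of sequences, and so `C_p(X)` is not hereditarily sequentially separable. -/
theorem result :
    (∃ (P : Type) (_ : Preorder P), Nonempty P ∧
      ∀ p : P, p ∈ OmegaOnePreserved P ∧ p ∈ CHHolds P) ∧
    (Cardinal.aleph.{0} 1 = Cardinal.continuum →
      ∃ (X : Type) (_ : TopologicalSpace X) (_ : T35Space X)
        (S : Set {f : X → ℝ // Continuous f}),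
        HS X ∧ #S ≤ Cardinal.aleph.{0} 1 ∧ (∀ f ∈ S, ∀ y : X, f.1 y = 0 ∨ f.1 y = 1) ∧
        ¬ SeqHull S ∧ ¬ HSS X) := by
  refine ⟨?_, fun hCH => ?_⟩
  · obtain ⟨P, hP, hne, h⟩ := Pool.Agent.Helper292.ForceCH.exists_forcing
    exact ⟨P, hP, hne, fun p => ⟨(h p).1, (h p).2.2⟩⟩
  · obtain ⟨X, hX1, hX2, S, hs, hcard, h01, hno⟩ := Pool.Agent.H916R3.HFC.main hCH
    have hnot : ¬ SeqHull S := by
      rintro ⟨D, hD, h⟩
      obtain ⟨f, hfS, hf⟩ := hno D hD
      obtain ⟨u, hu, hlim⟩ := h f hfS
      exact hf u hu hlim
    refine ⟨X, hX1, hX2, S, hs, hcard, h01, hnot, fun h => hnot ?_⟩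
    obtain ⟨D, -, hD, hlim⟩ := h S
    exact ⟨D, hD, hlim⟩

end Pool.Agent.Results.MP_f4fb69_gt.ConsistentlyNot
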